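import Pool.Agent.Q93.EHC.AS

/-! Fixed residue systems and the Elliott-Halberstam conjecture: the final forms. -/

set_option autoImplicit false

open Finset Filter MeasureTheory

namespace Pool.Agent.Q93.EHC

/-- the identity map of the residue systems -/
def idm (k : ℕ) : (ZMod (k + 1))ˣ → (ZMod (k + 1))ˣ := id

/-- the number of the moduli up to `x ^ θ` -/
noncomputable def lev (θ : ℝ) (x : ℕ) : ℕ := ⌊(x : ℝ) ^ θ⌋₊

/-- all levels below `1`, with the maximum -/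
def Full : Prop := ∀ θ : ℝ, θ < 1 → ∀ A : ℝ, 0 < A → MaxBound idm (lev θ) A

/-- all levels below `1`, one system -/
def FullSys (c : ∀ k : ℕ, (ZMod (k + 1))ˣ) : Prop :=
  ∀ θ : ℝ, θ < 1 → ∀ A : ℝ, 0 < A → SysBound idm (lev θ) A c

/-- all levels below `1`, one system with signs -/
def FullSign (p : ∀ k : ℕ, (ZMod (k + 1))ˣ × ℤˣ) : Prop :=
  ∀ θ : ℝ, θ < 1 → ∀ A : ℝ, 0 < A → SignBound idm (lev θ) A p

theorem full_sys : (Full ↔ ∀ c, FullSys c) ∧ (Full ↔ ¬ IsMeagre {c | FullSys c}) := by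
  have h1 : Full → ∀ c, FullSys c := fun h c θ hθ A hA => sys_of_max _ _ (h θ hθ A hA) c
  have h2 : ¬ IsMeagre {c | FullSys c} → Full := by
    intro h θ hθ A hA
    by_contra hb
    apply h
    refine IsMeagre.mono ?_ (sys_meagre _ _ hb)
    intro c hc
    exact hc θ hθ A hA
  have h3 : (∀ c, FullSys c) → ¬ IsMeagre {c | FullSys c} := fun h => univ_not_meagre h
  exact ⟨⟨h1, fun h => h2 (h3 h)⟩, ⟨fun h => h3 (h1 h), h2⟩⟩

theorem full_sign : (Full ↔ ∀ p, FullSign p) ∧ (Full ↔ ¬ IsMeagre {p | FullSign p}) := by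
  have h1 : Full → ∀ p, FullSign p := fun h p θ hθ A hA => sign_of_max _ _ (h θ hθ A hA) p
  have h2 : ¬ IsMeagre {p | FullSign p} → Full := by
    intro h θ hθ A hA
    by_contra hb
    apply h
    refine IsMeagre.mono ?_ (sign_meagre _ _ hb)
    intro c hc
    exact hc θ hθ A hA
  have h3 : (∀ p, FullSign p) → ¬ IsMeagre {p | FullSign p} := fun h => univ_not_meagre h
  exact ⟨⟨h1, fun h => h2 (h3 h)⟩, ⟨fun h => h3 (h1 h), h2⟩⟩

section Unif

variable {Ω : Type*} [MeasurableSpace Ω] (μ : Measure Ω) [IsProbabilityMeasure μ]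
  {c : ∀ k : ℕ, Ω → (ZMod (k + 1))ˣ}

/-- uniform marginals have bounded collision sums -/
lemma coll_unif (hu : ∀ k (a : (ZMod (k + 1))ˣ), pr μ c k a = 1 / (Nat.totient (k + 1) : ℝ))
    (n : ℕ) : ∑ k ∈ range n, ∑ a, pr μ c k a ^ 2 ≤ 9 * (n : ℝ) ^ (0 : ℝ) * Real.log (n + 2) ^ 2 := by
  have e : ∀ k ∈ range n, ∑ a, pr μ c k a ^ 2 = 1 / (Nat.totient (k + 1) : ℝ) := by
    intro k _
    have hφ : (0 : ℝ) < (Nat.totient (k + 1) : ℝ) := by
      exact_mod_cast Nat.totient_pos.2 (by omega)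
    rw [sum_congr rfl fun a _ => by rw [hu k a], sum_const, card_univ, ZMod.card_units_eq_totient,
      nsmul_eq_mul]
    field_simp
  rw [sum_congr rfl e, sum_shift (fun e => 1 / (Nat.totient e : ℝ)) n, Real.rpow_zero, mul_one]
  refine (Pool.Agent.H441R3.BV.sum_inv_tot n).trans ?_
  have hn0 : (0:ℝ) ≤ n := Nat.cast_nonneg n
  have h1 : Real.log 2 ≤ Real.log ((n:ℝ) + 2) := Real.log_le_log (by norm_num) (by linarith)
  have h2 := Real.log_two_gt_d9
  have h3 : Real.log n ≤ Real.log ((n:ℝ) + 2) := by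
    rcases Nat.eq_zero_or_pos n with h | h
    · rw [h, Nat.cast_zero, Real.log_zero, zero_add]; linarith
    · exact Real.log_le_log (by exact_mod_cast h) (by linarith)
  have h4 : 0 ≤ Real.log n := Real.log_natCast_nonneg n
  calc (1 + Real.log n) ^ 2 ≤ (3 * Real.log (n + 2)) ^ 2 :=
        pow_le_pow_left₀ (by linarith) (by linarith) 2
    _ = _ := by ring

/-- bounds at all large heights give the bounds at all levels below `1` -/
lemma full_of_large (c : ∀ k : ℕ, (ZMod (k + 1))ˣ)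
    (h : ∀ U : ℕ, ∃ B x₀ : ℕ, ∀ x : ℕ, x₀ ≤ x → ∀ n : ℕ, (n : ℝ) * Real.log x ^ B ≤ x →
      ∑ k ∈ range n, |err x (k + 1) (c k : ZMod (k + 1))| ≤ x / Real.log x ^ U) : FullSys c := by
  intro θ hθ A hA
  obtain ⟨U, hU⟩ := exists_nat_ge A
  obtain ⟨B, x₀, H⟩ := h U
  have ev := Pool.Agent.H398R2.BV.ev_log 1 B (1 - θ) (by linarith)
  obtain ⟨x₁, hx₁⟩ := eventually_atTop.1 ((tendsto_natCast_atTop_atTop (R := ℝ)).eventually ev)
  obtain ⟨M, hM⟩ : ∃ M, M = x₀ + x₁ + 3 := ⟨_, rfl⟩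
  -- the finitely many small heights
  obtain ⟨C1, hC1⟩ : ∃ C1, C1 = ∑ x ∈ range M, (∑ k ∈ range (lev θ x),
      |err x (k + 1) (c k : ZMod (k + 1))|) / (x * Real.log x ^ (-A)) := ⟨_, rfl⟩
  have hterm : ∀ x : ℕ, 0 ≤ (∑ k ∈ range (lev θ x), |err x (k + 1) (c k : ZMod (k + 1))|) /
      (x * Real.log x ^ (-A)) := by
    intro x
    have h1 : 0 ≤ Real.log x := Real.log_natCast_nonneg x
    have h2 : 0 ≤ ∑ k ∈ range (lev θ x), |err x (k + 1) (c k : ZMod (k + 1))| :=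
      sum_nonneg fun _ _ => abs_nonneg _
    positivity
  have hC10 : 0 ≤ C1 := by rw [hC1]; exact sum_nonneg fun x _ => hterm x
  refine ⟨C1 + 1, fun x hx => ?_⟩
  have hx0 : (0 : ℝ) < x := by exact_mod_cast (by omega : 0 < x)
  have hlx : 1 ≤ Real.log x := Pool.Agent.TH926.EH.log_ge_one (N := x) (by omega)
  have hlx0 : 0 < Real.log x := by linarith
  have hpos : 0 < (x : ℝ) * Real.log x ^ (-A) := by positivity
  show ∑ k ∈ range (lev θ x), |err x (k + 1) (c k : ZMod (k + 1))| ≤ _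
  rcases lt_or_ge x M with hxM | hxM
  · have h1 : (∑ k ∈ range (lev θ x), |err x (k + 1) (c k : ZMod (k + 1))|) /
        (x * Real.log x ^ (-A)) ≤ C1 := by
      rw [hC1]
      exact single_le_sum (f := fun x : ℕ => (∑ k ∈ range (lev θ x),
        |err x (k + 1) (c k : ZMod (k + 1))|) / (x * Real.log x ^ (-A)))
        (fun y _ => hterm y) (mem_range.2 hxM)
    rw [div_le_iff₀ hpos] at h1
    nlinarith
  · have h2 := hx₁ x (by omega)
    rw [one_mul] at h2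
    have h3 : ((lev θ x : ℕ) : ℝ) * Real.log x ^ B ≤ x := by
      calc ((lev θ x : ℕ) : ℝ) * Real.log x ^ B ≤ (x : ℝ) ^ θ * (x : ℝ) ^ (1 - θ) := by
            apply mul_le_mul (Nat.floor_le (by positivity)) h2 (by positivity) (by positivity)
        _ = x := by rw [← Real.rpow_add hx0]; simp
    have h4 := H x (by omega) (lev θ x) h3
    have h5 : (x : ℝ) / Real.log x ^ U ≤ x * Real.log x ^ (-A) := by
      rw [div_eq_mul_inv, ← Real.rpow_natCast, ← Real.rpow_neg hlx0.le]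
      apply mul_le_mul_of_nonneg_left _ hx0.le
      exact Real.rpow_le_rpow_of_exponent_le hlx (by linarith)
    calc _ ≤ _ := h4
      _ ≤ _ := h5
      _ ≤ _ := by nlinarith

/-- **uniform marginals** -/
theorem unif (hc : ∀ k (a : (ZMod (k + 1))ˣ), MeasurableSet {ω | c k ω = a})
    (hu : ∀ k (a : (ZMod (k + 1))ˣ), pr μ c k a = 1 / (Nat.totient (k + 1) : ℝ)) :
    ∀ᵐ ω ∂μ, FullSys fun k => c k ω := by
  have h : ∀ U : ℕ, ∃ B : ℕ, ∀ᵐ ω ∂μ, ∃ x₀ : ℕ, ∀ x : ℕ, x₀ ≤ x → ∀ n : ℕ,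
      (n : ℝ) ^ (1 + (0 : ℝ)) * Real.log x ^ B ≤ x → SN c x n ω ≤ x / Real.log x ^ U :=
    fun U => as μ hc 0 9 2 le_rfl (by norm_num) (coll_unif μ hu) U
  choose B hB using h
  filter_upwards [ae_all_iff.2 hB] with ω hω
  apply full_of_large
  intro U
  obtain ⟨x₀, hx₀⟩ := hω U
  refine ⟨B U, x₀, fun x hx n hn => hx₀ x hx n ?_⟩
  rw [add_zero, Real.rpow_one]
  exact hn

end Unif

end Pool.Agent.Q93.EHC
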