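import Pool.Agent.Q93.EHC.Hump
import Pool.Agent.Y882.EHF

/-! The Elliott-Halberstam conjecture and fixed residue systems: Baire category. -/

set_option autoImplicit false

open Finset Filter

namespace Pool.Agent.Q93.EHC

/-- the number of primes `p ≤ x` -/
noncomputable def primePi (x : ℕ) : ℕ := ((Icc 1 x).filter (fun p : ℕ => p.Prime)).card

/-- `π(x; q, a) - π(x)/φ(q)` -/
noncomputable def err (x q : ℕ) (a : ZMod q) : ℝ :=
  (((Icc 1 x).filter (fun p : ℕ => p.Prime ∧ (p : ZMod q) = a)).card : ℝ) -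
    (primePi x : ℝ) / (Nat.totient q : ℝ)

lemma err_nat (x q a : ℕ) : |err x q (a : ZMod q)| = Pool.Agent.TH926.EH.E x q a := by
  unfold err Pool.Agent.TH926.EH.E Pool.Agent.H442R2.EHI.piAP Pool.Agent.TH926.EH.pc primePi
  have e : (Icc 1 x).filter (fun p : ℕ => p.Prime ∧ (p : ZMod q) = (a : ZMod q)) =
      (Icc 1 x).filter (fun p : ℕ => p.Prime ∧ p ≡ a [MOD q]) := by
    apply filter_congr
    intro p _
    rw [ZMod.natCast_eq_natCast_iff]
  rw [e]

lemma err_unit (x k : ℕ) (a : (ZMod (k + 1))ˣ) :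
    |err x (k + 1) (a : ZMod (k + 1))| = Pool.Agent.TH926.EH.E x (k + 1) (a : ZMod (k + 1)).val := by
  rw [← err_nat, ZMod.natCast_zmod_val]

lemma err_triv (x k : ℕ) (a : (ZMod (k + 1))ˣ) : |err x (k + 1) (a : ZMod (k + 1))| ≤ x := by
  rw [err_unit]
  exact Pool.Agent.TH926.EH.E_triv x (k + 1) _ (by omega)

/-- for a fixed number of moduli the errors are small in all residue classes -/
theorem small (K : ℕ) (B : ℝ) : ∃ C : ℝ, 0 ≤ C ∧ ∀ x : ℕ, 2 < x → ∀ c : ∀ k : ℕ, (ZMod (k + 1))ˣ,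
    ∑ k ∈ range K, |err x (k + 1) (c k : ZMod (k + 1))| ≤ C * (x * Real.log x ^ (-B)) := by
  obtain ⟨U, hU⟩ := exists_nat_ge B
  obtain ⟨D, N₀, H⟩ := Pool.Agent.Y882.EHF.few U
  have ev1 := (Real.tendsto_log_atTop.comp (tendsto_natCast_atTop_atTop (R := ℝ))).eventually_ge_atTop 1
  have ev2 : ∀ᶠ N : ℕ in atTop, ((K : ℝ) ^ 2 + K + 1) * Real.log N ^ D ≤ (N : ℝ) ^ (1 / 2 : ℝ) := by
    have ev := Pool.Agent.H398R2.BV.ev_log ((K : ℝ) ^ 2 + K + 1) D (1 / 2) (by norm_num)
    exact (tendsto_natCast_atTop_atTop (R := ℝ)).eventually ev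
  obtain ⟨N1, hN1⟩ := eventually_atTop.1 (ev1.and ev2)
  obtain ⟨M, hM⟩ : ∃ M, M = N₀ + N1 + 4 := ⟨_, rfl⟩
  have hlogM : 1 ≤ Real.log M := by
    have := (hN1 M (by omega)).1
    simpa using this
  refine ⟨K * Real.log M ^ |B| + 1, by positivity, fun x hx c => ?_⟩
  have hx0 : (0 : ℝ) < x := by exact_mod_cast (by omega : 0 < x)
  have hlx : 1 ≤ Real.log x := by
    have h3 := Pool.Agent.TH926.EH.log_ge_one (N := x) (by omega)
    exact h3
  have hlx0 : 0 < Real.log x := by linarith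
  have hpos : 0 < (x : ℝ) * Real.log x ^ (-B) := by positivity
  rcases lt_or_ge x M with hxM | hxM
  · -- small `x`
    have h1 : ∑ k ∈ range K, |err x (k + 1) (c k : ZMod (k + 1))| ≤ K * x := by
      calc _ ≤ ∑ _k ∈ range K, (x : ℝ) := sum_le_sum fun k _ => err_triv x k (c k)
        _ = _ := by rw [sum_const, card_range, nsmul_eq_mul]
    have h2 : 1 ≤ Real.log M ^ |B| * Real.log x ^ (-B) := by
      have h3 : Real.log x ^ B ≤ Real.log M ^ |B| := by
        calc Real.log x ^ B ≤ Real.log x ^ |B| := Real.rpow_le_rpow_of_exponent_le hlx (le_abs_self B)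
          _ ≤ Real.log M ^ |B| := by
            apply Real.rpow_le_rpow hlx0.le _ (abs_nonneg B)
            exact Real.log_le_log hx0 (by exact_mod_cast hxM.le)
      rw [Real.rpow_neg hlx0.le, ← div_eq_mul_inv, le_div_iff₀ (by positivity), one_mul]
      exact h3
    calc _ ≤ (K : ℝ) * x := h1
      _ ≤ K * x * (Real.log M ^ |B| * Real.log x ^ (-B)) := le_mul_of_one_le_right (by positivity) h2
      _ = K * Real.log M ^ |B| * (x * Real.log x ^ (-B)) := by ring
      _ ≤ _ := by nlinarith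
  · -- large `x`
    obtain ⟨-, h2⟩ := hN1 x (by omega)
    have hlD : 1 ≤ Real.log x ^ D := one_le_pow₀ hlx
    have hx1 : (1 : ℝ) ≤ x := by exact_mod_cast (by omega : 1 ≤ x)
    have hsq : (x : ℝ) ^ (1 / 2 : ℝ) ≤ x := by
      calc (x : ℝ) ^ (1 / 2 : ℝ) ≤ (x : ℝ) ^ (1 : ℝ) :=
            Real.rpow_le_rpow_of_exponent_le hx1 (by norm_num)
        _ = x := Real.rpow_one _
    have h3 : ((K : ℝ) ^ 2 + K + 1) * Real.log x ^ D ≤ x := h2.trans hsq
    have hK0 : (0 : ℝ) ≤ K := Nat.cast_nonneg K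
    obtain ⟨c', hc'⟩ : ∃ c' : ℕ → ℕ, c' = fun q => (c (q - 1) : ZMod (q - 1 + 1)).val := ⟨_, rfl⟩
    have hS : Pool.Agent.Y882.EHF.S x K c' = ∑ k ∈ range K, |err x (k + 1) (c k : ZMod (k + 1))| := by
      unfold Pool.Agent.Y882.EHF.S
      have e1 : (Icc 1 K).filter (fun q => (c' q).Coprime q) = Ico 1 (K + 1) := by
        ext q
        simp only [mem_filter, mem_Icc, mem_Ico]
        constructor
        · rintro ⟨⟨h1, h2⟩, -⟩; omega
        · rintro ⟨h1, h2⟩
          refine ⟨⟨h1, by omega⟩, ?_⟩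
          obtain ⟨k, rfl⟩ : ∃ k, q = k + 1 := ⟨q - 1, by omega⟩
          rw [hc']
          exact ZMod.val_coe_unit_coprime (c k)
      rw [e1, sum_Ico_eq_sum_range]
      apply sum_congr (by rw [Nat.add_sub_cancel])
      intro k _
      rw [Nat.add_comm 1 k, err_unit, hc']
      rfl
    rw [← hS]
    have h4 : Pool.Agent.Y882.EHF.S x K c' ≤ x / Real.log x ^ U := by
      by_contra hcon
      have h5 := H x (by omega) K (by nlinarith) Unit {()} (fun _ => c')
        (fun i _ j _ hij => absurd (Subsingleton.elim i j) hij) (fun _ _ => not_le.1 hcon)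
      rw [card_singleton, Nat.cast_one, div_mul_eq_mul_div, le_div_iff₀ hx0] at h5
      nlinarith
    have h5 : (x : ℝ) / Real.log x ^ U ≤ x * Real.log x ^ (-B) := by
      rw [div_eq_mul_inv, ← Real.rpow_natCast, ← Real.rpow_neg hlx0.le]
      apply mul_le_mul_of_nonneg_left _ hx0.le
      exact Real.rpow_le_rpow_of_exponent_le hlx (by linarith)
    calc _ ≤ _ := h4
      _ ≤ _ := h5
      _ ≤ _ := by
          have : 0 ≤ (K : ℝ) * Real.log M ^ |B| := by positivity
          nlinarith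

lemma continuous_proj {Y : ℕ → Type} [∀ k, TopologicalSpace (Y k)] [∀ k, DiscreteTopology (Y k)]
    (k : ℕ) (f : Y k → ℝ) : Continuous fun y : ∀ k, Y k => f (y k) :=
  (continuous_of_discreteTopology (f := f)).comp (continuous_apply k)

lemma univ_not_meagre {Y : ℕ → Type} [∀ k, TopologicalSpace (Y k)] [∀ k, DiscreteTopology (Y k)]
    [∀ k, Finite (Y k)] [∀ k, Nonempty (Y k)] {P : (∀ k, Y k) → Prop} (h : ∀ y, P y) :
    ¬ IsMeagre {y | P y} := by
  have e : {y : ∀ k, Y k | P y} = Set.univ := by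
    ext y; simp [h y]
  rw [e]
  exact not_isMeagre_of_isOpen isOpen_univ Set.univ_nonempty

section Cat

variable {Y : ℕ → Type} (ι : ∀ k : ℕ, Y k → (ZMod (k + 1))ˣ)

/-- the maximum of the error modulo `k + 1` over the classes `ι k a` -/
noncomputable def maxErr (x k : ℕ) : ℝ :=
  ⨆ a : Y k, |err x (k + 1) (ι k a : ZMod (k + 1))|

/-- the sum of the maxima over the moduli up to `Q x` is `O(x (log x)^(-B))` -/
def MaxBound (Q : ℕ → ℕ) (B : ℝ) : Prop :=
  ∃ C : ℝ, ∀ x : ℕ, 2 < x → ∑ k ∈ range (Q x), maxErr ι x k ≤ C * (x * Real.log x ^ (-B))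

/-- the bound for one fixed system of residue classes -/
def SysBound (Q : ℕ → ℕ) (B : ℝ) (c : ∀ k, Y k) : Prop :=
  ∃ C : ℝ, ∀ x : ℕ, 2 < x →
    ∑ k ∈ range (Q x), |err x (k + 1) (ι k (c k) : ZMod (k + 1))| ≤
      C * (x * Real.log x ^ (-B))

/-- the bound for one fixed system of residue classes and signs -/
def SignBound (Q : ℕ → ℕ) (B : ℝ) (p : ∀ k, Y k × ℤˣ) : Prop :=
  ∃ C : ℝ, ∀ x : ℕ, 2 < x →
    |∑ k ∈ range (Q x), (((p k).2 : ℤ) : ℝ) *
      err x (k + 1) (ι k (p k).1 : ZMod (k + 1))| ≤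
      C * (x * Real.log x ^ (-B))

variable {ι} [∀ k, Finite (Y k)]

lemma le_maxErr (x k : ℕ) (a : Y k) :
    |err x (k + 1) (ι k a : ZMod (k + 1))| ≤ maxErr ι x k :=
  le_ciSup (f := fun a : Y k => |err x (k + 1) (ι k a : ZMod (k + 1))|)
    (Set.finite_range _).bddAbove a

lemma exists_max [∀ k, Nonempty (Y k)] (x : ℕ) : ∃ c : ∀ k, Y k, ∀ k,
    |err x (k + 1) (ι k (c k) : ZMod (k + 1))| = maxErr ι x k := by
  have h : ∀ k, ∃ a : Y k, |err x (k + 1) (ι k a : ZMod (k + 1))| = maxErr ι x k :=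
    fun k => exists_eq_ciSup_of_finite
  choose c hc using h
  exact ⟨c, hc⟩

lemma maxErr_nonneg [∀ k, Nonempty (Y k)] (x k : ℕ) : 0 ≤ maxErr ι x k := by
  obtain ⟨c, hc⟩ := exists_max (ι := ι) x
  rw [← hc k]
  exact abs_nonneg _

/-- the hump -/
lemma hump_exists [∀ k, Nonempty (Y k)] (Q : ℕ → ℕ) (B : ℝ) (hb : ¬ MaxBound ι Q B) (K : ℕ)
    (C : ℝ) (c0 : ∀ k, Y k) : ∃ x : ℕ, 2 < x ∧ ∃ c : ∀ k, Y k, (∀ k < K, c k = c0 k) ∧
      C * (x * Real.log x ^ (-B)) +
        ∑ k ∈ (range (Q x)).filter (fun k => k < K),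
          |err x (k + 1) (ι k (c k) : ZMod (k + 1))| <
        ∑ k ∈ (range (Q x)).filter (fun k => ¬ k < K),
          |err x (k + 1) (ι k (c k) : ZMod (k + 1))| := by
  classical
  obtain ⟨C1, hC1, h1⟩ := small K B
  unfold MaxBound at hb
  push Not at hb
  obtain ⟨x, hx, hbig⟩ := hb (C + 2 * C1)
  obtain ⟨cm, hcm⟩ := exists_max (ι := ι) x
  refine ⟨x, hx, fun k => if k < K then c0 k else cm k, fun k hk => if_pos hk, ?_⟩
  have e1 : ∑ k ∈ (range (Q x)).filter (fun k => ¬ k < K),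
      |err x (k + 1) (ι k (if k < K then c0 k else cm k) : ZMod (k + 1))| =
      ∑ k ∈ (range (Q x)).filter (fun k => ¬ k < K), maxErr ι x k := by
    apply sum_congr rfl
    intro k hk
    rw [if_neg (mem_filter.1 hk).2, hcm k]
  have sub : (range (Q x)).filter (fun k => k < K) ⊆ range K := by
    intro k hk
    exact mem_range.2 (mem_filter.1 hk).2
  have e2 : ∑ k ∈ (range (Q x)).filter (fun k => k < K),
      |err x (k + 1) (ι k (if k < K then c0 k else cm k) : ZMod (k + 1))| ≤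
      C1 * (x * Real.log x ^ (-B)) :=
    (sum_le_sum_of_subset_of_nonneg sub fun _ _ _ => abs_nonneg _).trans
      (h1 x hx fun k => ι k (if k < K then c0 k else cm k))
  have e3 : ∑ k ∈ (range (Q x)).filter (fun k => k < K), maxErr ι x k ≤
      C1 * (x * Real.log x ^ (-B)) := by
    calc _ = ∑ k ∈ (range (Q x)).filter (fun k => k < K),
          |err x (k + 1) (ι k (cm k) : ZMod (k + 1))| :=
          sum_congr rfl fun k _ => (hcm k).symm
      _ ≤ ∑ k ∈ range K, |err x (k + 1) (ι k (cm k) : ZMod (k + 1))| :=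
          sum_le_sum_of_subset_of_nonneg sub fun _ _ _ => abs_nonneg _
      _ ≤ _ := h1 x hx fun k => ι k (cm k)
  have e4 := sum_filter_add_sum_filter_not (range (Q x)) (fun k => k < K) (fun k => maxErr ι x k)
  rw [e1]
  linarith

/-- if the bound with the maximum holds, it holds for every system -/
lemma sys_of_max (Q : ℕ → ℕ) (B : ℝ) (h : MaxBound ι Q B) (c : ∀ k, Y k) : SysBound ι Q B c := by
  obtain ⟨C, hC⟩ := h
  exact ⟨C, fun x hx => (sum_le_sum fun k _ => le_maxErr x k (c k)).trans (hC x hx)⟩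

lemma sign_of_max (Q : ℕ → ℕ) (B : ℝ) (h : MaxBound ι Q B) (p : ∀ k, Y k × ℤˣ) :
    SignBound ι Q B p := by
  obtain ⟨C, hC⟩ := sys_of_max Q B h fun k => (p k).1
  refine ⟨C, fun x hx => (abs_sum_le_sum_abs _ _).trans ?_⟩
  refine le_trans (le_of_eq ?_) (hC x hx)
  apply sum_congr rfl
  intro k _
  rw [abs_mul]
  rcases Int.units_eq_one_or (p k).2 with h | h <;> rw [h] <;> simp

theorem sys_meagre [∀ k, TopologicalSpace (Y k)] [∀ k, DiscreteTopology (Y k)]
    [∀ k, Nonempty (Y k)] (Q : ℕ → ℕ) (B : ℝ) (hb : ¬ MaxBound ι Q B) :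
    IsMeagre {c : ∀ k, Y k | SysBound ι Q B c} := by
  obtain ⟨F, hF⟩ : ∃ F : ℕ → (∀ k, Y k) → ℝ, F = fun x c => if 2 < x then
      (∑ k ∈ range (Q x), |err x (k + 1) (ι k (c k) : ZMod (k + 1))|) *
        (x * Real.log x ^ (-B))⁻¹ else 0 := ⟨_, rfl⟩
  have h1 : ∀ x, Continuous (F x) := by
    intro x
    rw [hF]
    by_cases hx : 2 < x
    · simp only [if_pos hx]
      apply Continuous.mul _ continuous_const
      apply continuous_finsetSum
      intro k _
      exact continuous_proj (Y := fun k => Y k) k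
        (fun a => |err x (k + 1) (ι k a : ZMod (k + 1))|)
    · simp only [if_neg hx]
      exact continuous_const
  have h2 : IsMeagre {c : ∀ k, Y k | ∃ C : ℝ, ∀ x, F x c ≤ C} := by
    apply hump F h1
    intro c0 K C
    obtain ⟨x, hx, c, hc, hbig⟩ := hump_exists Q B hb K C c0
    refine ⟨c, hc, x, ?_⟩
    rw [hF]
    simp only [if_pos hx]
    have hx0 : (0 : ℝ) < x := by exact_mod_cast (by omega : 0 < x)
    have hlx : 1 ≤ Real.log x := Pool.Agent.TH926.EH.log_ge_one (N := x) (by omega)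
    have hlx0 : 0 < Real.log x := by linarith
    have hpos : 0 < (x : ℝ) * Real.log x ^ (-B) := by positivity
    rw [← div_eq_mul_inv, lt_div_iff₀ hpos]
    have e4 := sum_filter_add_sum_filter_not (range (Q x)) (fun k => k < K)
      (fun k => |err x (k + 1) (ι k (c k) : ZMod (k + 1))|)
    have h0 : 0 ≤ ∑ k ∈ (range (Q x)).filter (fun k => k < K),
        |err x (k + 1) (ι k (c k) : ZMod (k + 1))| :=
      sum_nonneg fun _ _ => abs_nonneg _
    linarith
  refine IsMeagre.mono ?_ h2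
  rintro c ⟨C, hC⟩
  refine ⟨max C 0, fun x => ?_⟩
  rw [hF]
  by_cases hx : 2 < x
  · simp only [if_pos hx]
    have hx0 : (0 : ℝ) < x := by exact_mod_cast (by omega : 0 < x)
    have hlx : 1 ≤ Real.log x := Pool.Agent.TH926.EH.log_ge_one (N := x) (by omega)
    have hlx0 : 0 < Real.log x := by linarith
    have hpos : 0 < (x : ℝ) * Real.log x ^ (-B) := by positivity
    rw [← div_eq_mul_inv, div_le_iff₀ hpos]
    exact (hC x hx).trans (mul_le_mul_of_nonneg_right (le_max_left _ _) hpos.le)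
  · simp only [if_neg hx]
    exact le_max_right _ _

theorem sign_meagre [∀ k, TopologicalSpace (Y k)] [∀ k, DiscreteTopology (Y k)]
    [∀ k, Nonempty (Y k)] (Q : ℕ → ℕ) (B : ℝ) (hb : ¬ MaxBound ι Q B) :
    IsMeagre {p : ∀ k, Y k × ℤˣ | SignBound ι Q B p} := by
  classical
  obtain ⟨F, hF⟩ : ∃ F : ℕ → (∀ k, Y k × ℤˣ) → ℝ, F = fun x p => if 2 < x then
      |∑ k ∈ range (Q x), (((p k).2 : ℤ) : ℝ) *
        err x (k + 1) (ι k (p k).1 : ZMod (k + 1))| *
        (x * Real.log x ^ (-B))⁻¹ else 0 := ⟨_, rfl⟩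
  have h1 : ∀ x, Continuous (F x) := by
    intro x
    rw [hF]
    by_cases hx : 2 < x
    · simp only [if_pos hx]
      apply Continuous.mul _ continuous_const
      apply Continuous.abs
      apply continuous_finsetSum
      intro k _
      exact continuous_proj (Y := fun k => Y k × ℤˣ) k
        (fun a => ((a.2 : ℤ) : ℝ) * err x (k + 1) (ι k a.1 : ZMod (k + 1)))
    · simp only [if_neg hx]
      exact continuous_const
  have h2 : IsMeagre {p : ∀ k, Y k × ℤˣ | ∃ C : ℝ, ∀ x, F x p ≤ C} := by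
    apply hump F h1
    intro p0 K C
    obtain ⟨x, hx, c, hc, hbig⟩ := hump_exists Q B hb K C fun k => (p0 k).1
    obtain ⟨s, hs⟩ : ∃ s : ℕ → ℤˣ, s = fun k => if k < K then (p0 k).2 else
      if 0 ≤ err x (k + 1) (ι k (c k) : ZMod (k + 1)) then 1 else -1 := ⟨_, rfl⟩
    refine ⟨fun k => (c k, s k), fun k hk => ?_, x, ?_⟩
    · apply Prod.ext
      · exact hc k hk
      · rw [hs]; exact if_pos hk
    rw [hF]
    simp only [if_pos hx]
    have hx0 : (0 : ℝ) < x := by exact_mod_cast (by omega : 0 < x)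
    have hlx : 1 ≤ Real.log x := Pool.Agent.TH926.EH.log_ge_one (N := x) (by omega)
    have hlx0 : 0 < Real.log x := by linarith
    have hpos : 0 < (x : ℝ) * Real.log x ^ (-B) := by positivity
    rw [← div_eq_mul_inv, lt_div_iff₀ hpos]
    have e4 := sum_filter_add_sum_filter_not (range (Q x)) (fun k => k < K)
      (fun k => ((s k : ℤ) : ℝ) * err x (k + 1) (ι k (c k) : ZMod (k + 1)))
    have e5 : ∑ k ∈ (range (Q x)).filter (fun k => ¬ k < K),
        ((s k : ℤ) : ℝ) * err x (k + 1) (ι k (c k) : ZMod (k + 1)) =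
        ∑ k ∈ (range (Q x)).filter (fun k => ¬ k < K),
          |err x (k + 1) (ι k (c k) : ZMod (k + 1))| := by
      apply sum_congr rfl
      intro k hk
      rw [hs]
      simp only [if_neg (mem_filter.1 hk).2]
      split_ifs with h
      · rw [abs_of_nonneg h]; simp
      · rw [abs_of_neg (not_le.1 h)]; simp
    have e6 : |∑ k ∈ (range (Q x)).filter (fun k => k < K),
        ((s k : ℤ) : ℝ) * err x (k + 1) (ι k (c k) : ZMod (k + 1))| ≤
        ∑ k ∈ (range (Q x)).filter (fun k => k < K),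
          |err x (k + 1) (ι k (c k) : ZMod (k + 1))| := by
      refine (abs_sum_le_sum_abs _ _).trans (le_of_eq ?_)
      apply sum_congr rfl
      intro k _
      rw [abs_mul]
      rcases Int.units_eq_one_or (s k) with h | h <;> rw [h] <;> simp
    have e7 := (abs_le.1 e6).1
    rw [← e4, e5]
    refine lt_of_lt_of_le ?_ (le_abs_self _)
    linarith
  refine IsMeagre.mono ?_ h2
  rintro p ⟨C, hC⟩
  refine ⟨max C 0, fun x => ?_⟩
  rw [hF]
  by_cases hx : 2 < x
  · simp only [if_pos hx]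
    have hx0 : (0 : ℝ) < x := by exact_mod_cast (by omega : 0 < x)
    have hlx : 1 ≤ Real.log x := Pool.Agent.TH926.EH.log_ge_one (N := x) (by omega)
    have hlx0 : 0 < Real.log x := by linarith
    have hpos : 0 < (x : ℝ) * Real.log x ^ (-B) := by positivity
    rw [← div_eq_mul_inv, div_le_iff₀ hpos]
    exact (hC x hx).trans (mul_le_mul_of_nonneg_right (le_max_left _ _) hpos.le)
  · simp only [if_neg hx]
    exact le_max_right _ _

/-- **the equivalence for one level and one power of the logarithm** -/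
theorem cat [∀ k, TopologicalSpace (Y k)] [∀ k, DiscreteTopology (Y k)]
    [∀ k, Nonempty (Y k)] (Q : ℕ → ℕ) (B : ℝ) :
    (MaxBound ι Q B ↔ ¬ IsMeagre {c : ∀ k, Y k | SysBound ι Q B c}) ∧
    (MaxBound ι Q B ↔ ¬ IsMeagre {p : ∀ k, Y k × ℤˣ | SignBound ι Q B p}) := by
  refine ⟨⟨fun h => ?_, fun h => ?_⟩, ⟨fun h => ?_, fun h => ?_⟩⟩
  · exact univ_not_meagre (Y := fun k => Y k) (sys_of_max Q B h)
  · by_contra hb
    exact h (sys_meagre Q B hb)
  · exact univ_not_meagre (Y := fun k => Y k × ℤˣ) (sign_of_max Q B h)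
  · by_contra hb
    exact h (sign_meagre Q B hb)

end Cat

end Pool.Agent.Q93.EHC
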