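import Mathlib

/-! A gliding hump argument in products of discrete spaces. -/

set_option autoImplicit false

open Set Topology

namespace Pool.Agent.Q93.EHC

/-- **Gliding hump.** If `F x` is continuous on a product of discrete spaces and if in every
cylinder the functions `F x` take arbitrarily large values, then the points at which the functions
are bounded form a meagre set. -/
theorem hump {Y : ℕ → Type} [∀ k, TopologicalSpace (Y k)] [∀ k, DiscreteTopology (Y k)]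
    (F : ℕ → (∀ k, Y k) → ℝ) (hF : ∀ x, Continuous (F x))
    (h : ∀ (y0 : ∀ k, Y k) (K : ℕ) (C : ℝ), ∃ y : ∀ k, Y k, (∀ k < K, y k = y0 k) ∧
      ∃ x, C < F x y) :
    IsMeagre {y : ∀ k, Y k | ∃ C : ℝ, ∀ x, F x y ≤ C} := by
  have hsub : {y : ∀ k, Y k | ∃ C : ℝ, ∀ x, F x y ≤ C} ⊆ ⋃ n : ℕ, {y | ∀ x, F x y ≤ n} := by
    rintro y ⟨C, hC⟩
    obtain ⟨n, hn⟩ := exists_nat_ge C
    exact mem_iUnion.2 ⟨n, fun x => (hC x).trans hn⟩
  refine IsMeagre.mono hsub ?_
  apply isMeagre_iUnion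
  intro n
  apply IsNowhereDense.isMeagre
  have hcl : IsClosed {y : ∀ k, Y k | ∀ x, F x y ≤ n} := by
    have e : {y : ∀ k, Y k | ∀ x, F x y ≤ n} = ⋂ x, {y | F x y ≤ n} := by
      ext y; simp only [mem_setOf_eq, mem_iInter]
    rw [e]
    exact isClosed_iInter fun x => isClosed_le (hF x) continuous_const
  rw [hcl.isNowhereDense_iff]
  rw [eq_empty_iff_forall_notMem]
  intro y0 hy0
  rw [mem_interior] at hy0
  obtain ⟨V, hV, hVo, hyV⟩ := hy0
  rw [isOpen_pi_iff] at hVo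
  obtain ⟨I, u, hu, hIV⟩ := hVo y0 hyV
  obtain ⟨K, hK⟩ : ∃ K : ℕ, ∀ i ∈ I, i < K :=
    ⟨I.sup id + 1, fun i hi => Nat.lt_succ_of_le (Finset.le_sup (f := id) hi)⟩
  obtain ⟨y, hy, x, hx⟩ := h y0 K n
  have hyV' : y ∈ V := by
    apply hIV
    intro i hi
    rw [hy i (hK i hi)]
    exact (hu i hi).2
  exact absurd (hV hyV' x) (not_le.2 hx)

end Pool.Agent.Q93.EHC
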