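import Pool.Agent.Q93.EHC.Wt
import Pool.Agent.H441R3.BV.Dy

/-! Random residue systems: mean values, grid. -/

set_option autoImplicit false

open Finset Filter MeasureTheory

namespace Pool.Agent.Q93.EHC

section Count

lemma card_AP (x N q a : ℕ) (hq : 1 ≤ q) :
    ((Ioc x N).filter (fun p : ℕ => p ≡ a [MOD q])).card ≤ (N - x) / q + 1 := by
  have h : ((Ioc x N).filter (fun p : ℕ => p ≡ a [MOD q])).card ≤ (range ((N - x) / q + 1)).card := by
    apply card_le_card_of_injOn (fun m => (m - x - 1) / q)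
    · intro m hm
      rw [mem_coe, mem_filter, mem_Ioc] at hm
      rw [mem_coe, mem_range]
      exact Nat.lt_succ_of_le (Nat.div_le_div_right (by omega))
    · intro m hm m' hm' he
      rw [mem_coe, mem_filter, mem_Ioc] at hm hm'
      simp only at he
      have h1 : m ≡ m' [MOD q] := hm.2.trans hm'.2.symm
      obtain ⟨r, hr⟩ : ∃ r, m = r + (x + 1) := ⟨m - (x + 1), by omega⟩
      obtain ⟨r', hr'⟩ : ∃ r', m' = r' + (x + 1) := ⟨m' - (x + 1), by omega⟩
      rw [hr, hr'] at h1 he ⊢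
      have h2 : r ≡ r' [MOD q] := Nat.ModEq.add_right_cancel' (x + 1) h1
      have e1 : r + (x + 1) - x - 1 = r := by omega
      have e2 : r' + (x + 1) - x - 1 = r' := by omega
      rw [e1, e2] at he
      have h3 := Nat.div_add_mod r q
      have h4 := Nat.div_add_mod r' q
      have h5 : r % q = r' % q := h2
      rw [he, h5] at h3
      omega
  rwa [card_range] at h

lemma err_step (x N k : ℕ) (hxN : x ≤ N) (a : (ZMod (k + 1))ˣ) :
    |err x (k + 1) (a : ZMod (k + 1))| ≤ |err N (k + 1) (a : ZMod (k + 1))| +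
      (1 + ((N : ℝ) - x) * (1 / (Nat.totient (k + 1) : ℝ))) := by
  obtain ⟨b, hb⟩ : ∃ b : ℕ, (a : ZMod (k + 1)) = (b : ZMod (k + 1)) :=
    ⟨(a : ZMod (k + 1)).val, (ZMod.natCast_zmod_val _).symm⟩
  have hφ : 0 < Nat.totient (k + 1) := Nat.totient_pos.2 (by omega)
  have hφr : (0 : ℝ) < (Nat.totient (k + 1) : ℝ) := by exact_mod_cast hφ
  -- the sets
  have split : ∀ P : ℕ → Prop, ∀ [DecidablePred P],
      ((Icc 1 N).filter P).card = ((Icc 1 x).filter P).card + ((Ioc x N).filter P).card := by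
    intro P _
    rw [← card_union_of_disjoint]
    · congr 1
      ext p
      simp only [mem_filter, mem_union, mem_Icc, mem_Ioc]
      constructor
      · rintro ⟨h1, h2⟩
        by_cases h : p ≤ x
        · left; exact ⟨⟨h1.1, h⟩, h2⟩
        · right; exact ⟨⟨by omega, h1.2⟩, h2⟩
      · rintro (⟨h1, h2⟩ | ⟨h1, h2⟩)
        · exact ⟨⟨h1.1, by omega⟩, h2⟩
        · exact ⟨⟨by omega, h1.2⟩, h2⟩
    · rw [disjoint_left]
      intro p hp hp'
      rw [mem_filter, mem_Icc] at hp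
      rw [mem_filter, mem_Ioc] at hp'
      omega
  obtain ⟨u, hu⟩ : ∃ u : ℕ, u = ((Ioc x N).filter
      (fun p : ℕ => p.Prime ∧ (p : ZMod (k + 1)) = (a : ZMod (k + 1)))).card := ⟨_, rfl⟩
  obtain ⟨v, hv⟩ : ∃ v : ℕ, v = ((Ioc x N).filter (fun p : ℕ => p.Prime)).card := ⟨_, rfl⟩
  have e : err N (k + 1) (a : ZMod (k + 1)) - err x (k + 1) (a : ZMod (k + 1)) =
      (u : ℝ) - v / (Nat.totient (k + 1) : ℝ) := by
    unfold err primePi
    rw [split, split (fun p => p.Prime), ← hu, ← hv]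
    push_cast
    ring
  have hv1 : (v : ℝ) ≤ N - x := by
    have h1 : v ≤ N - x := by
      rw [hv]
      refine (card_filter_le _ _).trans ?_
      rw [Nat.card_Ioc]
    have h2 : ((N - x : ℕ) : ℝ) = N - x := by push_cast [hxN]; ring
    rw [← h2]
    exact_mod_cast h1
  have hu1 : (u : ℝ) ≤ (N - x) * (1 / (Nat.totient (k + 1) : ℝ)) + 1 := by
    have h1 : u ≤ (N - x) / (k + 1) + 1 := by
      rw [hu]
      refine le_trans ?_ (card_AP x N (k + 1) b (by omega))
      apply card_le_card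
      intro p hp
      rw [mem_filter] at hp ⊢
      refine ⟨hp.1, ?_⟩
      rw [← ZMod.natCast_eq_natCast_iff, hp.2.2, hb]
    have h2 : (((N - x) / (k + 1) : ℕ) : ℝ) ≤ ((N - x : ℕ) : ℝ) / ((k + 1 : ℕ) : ℝ) := Nat.cast_div_le
    have h3 : ((N - x : ℕ) : ℝ) = N - x := by push_cast [hxN]; ring
    have h4 : (0 : ℝ) ≤ N - x := by rw [← h3]; positivity
    have h5 : ((N - x : ℕ) : ℝ) / ((k + 1 : ℕ) : ℝ) ≤ (N - x) * (1 / (Nat.totient (k + 1) : ℝ)) := by
      rw [h3, div_eq_mul_one_div]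
      apply mul_le_mul_of_nonneg_left _ h4
      apply one_div_le_one_div_of_le hφr
      exact_mod_cast Nat.totient_le (k + 1)
    have h6 : (u : ℝ) ≤ (((N - x) / (k + 1) : ℕ) : ℝ) + 1 := by exact_mod_cast h1
    linarith
  have hv2 : (v : ℝ) / (Nat.totient (k + 1) : ℝ) ≤ (N - x) * (1 / (Nat.totient (k + 1) : ℝ)) := by
    rw [div_eq_mul_one_div]
    exact mul_le_mul_of_nonneg_right hv1 (by positivity)
  have h0 : 0 ≤ (v : ℝ) / (Nat.totient (k + 1) : ℝ) := by positivity
  have h0' : (0 : ℝ) ≤ u := Nat.cast_nonneg u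
  have key : |err N (k + 1) (a : ZMod (k + 1)) - err x (k + 1) (a : ZMod (k + 1))| ≤
      1 + ((N : ℝ) - x) * (1 / (Nat.totient (k + 1) : ℝ)) := by
    rw [e, abs_le]
    constructor <;> linarith
  have h7 := abs_sub_abs_le_abs_sub (err x (k + 1) (a : ZMod (k + 1))) (err N (k + 1) (a : ZMod (k + 1)))
  rw [abs_sub_comm] at h7
  linarith

/-- comparison of the errors at `x` and at `N` -/
lemma sum_step (x N n : ℕ) (hxN : x ≤ N) (c : ∀ k : ℕ, (ZMod (k + 1))ˣ) :
    ∑ k ∈ range n, |err x (k + 1) (c k : ZMod (k + 1))| ≤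
      ∑ k ∈ range n, |err N (k + 1) (c k : ZMod (k + 1))| +
        (n + ((N : ℝ) - x) * (1 + Real.log n) ^ 2) := by
  have h1 := Pool.Agent.H441R3.BV.sum_inv_tot n
  rw [← sum_shift (fun e => 1 / (Nat.totient e : ℝ)) n] at h1
  have h3 : (0 : ℝ) ≤ N - x := by
    have : (x : ℝ) ≤ N := by exact_mod_cast hxN
    linarith
  calc _ ≤ ∑ k ∈ range n, (|err N (k + 1) (c k : ZMod (k + 1))| +
        (1 + ((N : ℝ) - x) * (1 / (Nat.totient (k + 1) : ℝ)))) :=
        sum_le_sum fun k _ => err_step x N k hxN (c k)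
    _ = ∑ k ∈ range n, |err N (k + 1) (c k : ZMod (k + 1))| +
        (n + ((N : ℝ) - x) * ∑ k ∈ range n, (1 / (Nat.totient (k + 1) : ℝ))) := by
        rw [sum_add_distrib, sum_add_distrib, ← mul_sum, sum_const, card_range, nsmul_eq_mul, mul_one]
    _ ≤ _ := by
        have := mul_le_mul_of_nonneg_left h1 h3
        linarith

end Count

section Random

variable {Ω : Type*} [MeasurableSpace Ω] (μ : Measure Ω) [IsProbabilityMeasure μ]
  (c : ∀ k : ℕ, Ω → (ZMod (k + 1))ˣ)

/-- the probability of a class -/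
noncomputable def pr (k : ℕ) (a : (ZMod (k + 1))ˣ) : ℝ := μ.real {ω | c k ω = a}

/-- the sum of the errors -/
noncomputable def SN (N n : ℕ) (ω : Ω) : ℝ :=
  ∑ k ∈ range n, |err N (k + 1) (c k ω : ZMod (k + 1))|

variable {c}

lemma pr_nonneg (k : ℕ) (a : (ZMod (k + 1))ˣ) : 0 ≤ pr μ c k a := measureReal_nonneg

lemma sum_pr (hc : ∀ k (a : (ZMod (k + 1))ˣ), MeasurableSet {ω | c k ω = a}) (k : ℕ) :
    ∑ a, pr μ c k a = 1 := by
  have h := sum_measureReal_preimage_singleton (μ := μ) (s := (univ : Finset (ZMod (k + 1))ˣ))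
    (f := c k) (fun a _ => hc k a)
  unfold pr
  rw [show (fun a : (ZMod (k + 1))ˣ => μ.real {ω | c k ω = a}) =
    fun a => μ.real (c k ⁻¹' {a}) from rfl, h]
  simp

lemma ind_sum (N k : ℕ) (ω : Ω) : |err N (k + 1) (c k ω : ZMod (k + 1))| =
    ∑ a : (ZMod (k + 1))ˣ, Set.indicator {ω | c k ω = a}
      (fun _ => |err N (k + 1) (a : ZMod (k + 1))|) ω := by
  classical
  rw [Finset.sum_eq_single (c k ω)]
  · rw [Set.indicator_of_mem]
    rfl
  · intro a _ ha
    rw [Set.indicator_of_notMem]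
    intro h
    exact ha (by simpa using h.symm)
  · intro h
    exact absurd (mem_univ _) h

lemma integrable_one (hc : ∀ k (a : (ZMod (k + 1))ˣ), MeasurableSet {ω | c k ω = a}) (k : ℕ)
    (a : (ZMod (k + 1))ˣ) (t : ℝ) : Integrable (Set.indicator {ω | c k ω = a} (fun _ => t)) μ :=
  (integrable_const t).indicator (hc k a)

lemma integrable_SN (hc : ∀ k (a : (ZMod (k + 1))ˣ), MeasurableSet {ω | c k ω = a}) (N n : ℕ) :
    Integrable (SN c N n) μ := by
  unfold SN
  apply integrable_finsetSum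
  intro k _
  have e : (fun ω => |err N (k + 1) (c k ω : ZMod (k + 1))|) = fun ω =>
    ∑ a : (ZMod (k + 1))ˣ, Set.indicator {ω | c k ω = a}
      (fun _ => |err N (k + 1) (a : ZMod (k + 1))|) ω := funext fun ω => ind_sum N k ω
  rw [e]
  apply integrable_finsetSum
  intro a _
  exact integrable_one μ hc k a _

lemma integral_SN (hc : ∀ k (a : (ZMod (k + 1))ˣ), MeasurableSet {ω | c k ω = a}) (N n : ℕ) :
    ∫ ω, SN c N n ω ∂μ = ∑ k ∈ range n, ∑ a : (ZMod (k + 1))ˣ,
      pr μ c k a * |err N (k + 1) (a : ZMod (k + 1))| := by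
  unfold SN
  rw [integral_finsetSum]
  · apply sum_congr rfl
    intro k _
    rw [show (fun ω => |err N (k + 1) (c k ω : ZMod (k + 1))|) = fun ω =>
      ∑ a : (ZMod (k + 1))ˣ, Set.indicator {ω | c k ω = a}
        (fun _ => |err N (k + 1) (a : ZMod (k + 1))|) ω from funext fun ω => ind_sum N k ω,
      integral_finsetSum _ fun a _ => integrable_one μ hc k a _]
    apply sum_congr rfl
    intro a _
    rw [integral_indicator_const _ (hc k a), smul_eq_mul]
    rfl
  · intro k _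
    have e : (fun ω => |err N (k + 1) (c k ω : ZMod (k + 1))|) = fun ω =>
      ∑ a : (ZMod (k + 1))ˣ, Set.indicator {ω | c k ω = a}
        (fun _ => |err N (k + 1) (a : ZMod (k + 1))|) ω := funext fun ω => ind_sum N k ω
    rw [e]
    apply integrable_finsetSum
    intro a _
    exact integrable_one μ hc k a _

lemma SN_nonneg (N n : ℕ) (ω : Ω) : 0 ≤ SN c N n ω := sum_nonneg fun _ _ => abs_nonneg _

/-- **the probability of a large sum at one height** -/
theorem prob_bad (hc : ∀ k (a : (ZMod (k + 1))ˣ), MeasurableSet {ω | c k ω = a})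
    (β K : ℝ) (D : ℕ) (hβ : 0 ≤ β) (hK : 0 ≤ K)
    (hcoll : ∀ n : ℕ, ∑ k ∈ range n, ∑ a, pr μ c k a ^ 2 ≤
      K * (n : ℝ) ^ β * Real.log (n + 2) ^ D) (U : ℕ) :
    ∃ C : ℝ, 0 < C ∧ ∀ N : ℕ, 3 ≤ N → ∀ n : ℕ,
      (n : ℝ) ^ (1 + β) * Real.log N ^ (D + 8 * U + 24) ≤ N → ∀ t : ℝ, 0 < t →
      μ.real {ω | t ≤ SN c N n ω} ≤ C * (N / Real.log N ^ U) / t := by
  obtain ⟨C, hC0, hC⟩ := wt U
  refine ⟨C * (1 + Real.sqrt (K * 3 ^ D)), by positivity, fun N hN n hn t ht => ?_⟩
  have hl1 := Pool.Agent.TH926.EH.log_ge_one hN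
  have hN1 : (1:ℝ) ≤ N := by
    have : 1 ≤ N := by omega
    exact_mod_cast this
  have hN0 : (0:ℝ) < N := by linarith
  have hl : 0 < Real.log N := by linarith
  have hLpow : ∀ j : ℕ, 1 ≤ Real.log N ^ j := fun j => one_le_pow₀ hl1
  have hn0 : (0:ℝ) ≤ n := Nat.cast_nonneg n
  have hnn : (n : ℝ) ≤ (n : ℝ) ^ (1 + β) := by
    rcases Nat.eq_zero_or_pos n with h | h
    · rw [h, Nat.cast_zero]; positivity
    · have h1 : (1:ℝ) ≤ n := by exact_mod_cast h
      calc (n:ℝ) = (n:ℝ) ^ (1:ℝ) := (Real.rpow_one _).symm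
        _ ≤ _ := Real.rpow_le_rpow_of_exponent_le h1 (by linarith)
  have hnL : (n : ℝ) * Real.log N ^ (U + 1) ≤ N := by
    calc (n : ℝ) * Real.log N ^ (U + 1) ≤ (n : ℝ) ^ (1 + β) * Real.log N ^ (D + 8 * U + 24) := by
          apply mul_le_mul hnn (pow_le_pow_right₀ hl1 (by omega)) (by positivity) (by positivity)
      _ ≤ N := hn
  have hnN : (n : ℝ) ≤ N := by
    have := hLpow (U + 1)
    nlinarith
  have h1 := hC N hN n hnL (fun k a => pr μ c k a) (fun k a => pr_nonneg μ k a)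
    (fun k => (sum_pr μ hc k).le)
  have h2 : Real.sqrt ((∑ k ∈ range n, ∑ a, pr μ c k a ^ 2) * (n * N)) ≤
      Real.sqrt (K * 3 ^ D) * (N / Real.log N ^ (4 * U + 12)) := by
    rw [← Real.sqrt_sq (show 0 ≤ (N : ℝ) / Real.log N ^ (4 * U + 12) by positivity),
      ← Real.sqrt_mul (by positivity)]
    apply Real.sqrt_le_sqrt
    have h3 : Real.log (n + 2) ≤ 3 * Real.log N := by
      calc Real.log (n + 2) ≤ Real.log (3 * N) := by
            apply Real.log_le_log (by positivity)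
            linarith
        _ = Real.log 3 + Real.log N := Real.log_mul (by norm_num) hN0.ne'
        _ ≤ _ := by
            have h4 : Real.log 3 ≤ 2 := by
              have := Real.log_le_sub_one_of_pos (show (0:ℝ) < 3 by norm_num)
              linarith
            linarith
    have h4 : 0 ≤ Real.log ((n:ℝ) + 2) := Real.log_nonneg (by linarith)
    have h5 : Real.log (n + 2) ^ D ≤ 3 ^ D * Real.log N ^ D := by
      rw [← mul_pow]
      exact pow_le_pow_left₀ h4 h3 D
    have h6 : (n : ℝ) ^ β * n ≤ (n : ℝ) ^ (1 + β) := by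
      rcases Nat.eq_zero_or_pos n with h | h
      · rw [h, Nat.cast_zero, mul_zero]; positivity
      · have h1 : (0:ℝ) < n := by exact_mod_cast h
        rw [Real.rpow_add h1, Real.rpow_one, mul_comm]
    have hsplit : Real.log N ^ (D + 8 * U + 24) = Real.log N ^ D * (Real.log N ^ (4 * U + 12)) ^ 2 := by
      rw [← pow_mul, ← pow_add]
      congr 1
      ring
    have h7 : (n : ℝ) ^ (1 + β) * Real.log N ^ D ≤ N / (Real.log N ^ (4 * U + 12)) ^ 2 := by
      rw [le_div_iff₀ (by positivity), mul_assoc, ← hsplit]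
      exact hn
    calc (∑ k ∈ range n, ∑ a, pr μ c k a ^ 2) * (n * N) ≤
        (K * (n : ℝ) ^ β * Real.log (n + 2) ^ D) * (n * N) :=
          mul_le_mul_of_nonneg_right (hcoll n) (by positivity)
      _ ≤ (K * (n : ℝ) ^ β * (3 ^ D * Real.log N ^ D)) * (n * N) := by gcongr
      _ = K * 3 ^ D * N * (((n : ℝ) ^ β * n) * Real.log N ^ D) := by ring
      _ ≤ K * 3 ^ D * N * ((n : ℝ) ^ (1 + β) * Real.log N ^ D) := by gcongr
      _ ≤ K * 3 ^ D * N * (N / (Real.log N ^ (4 * U + 12)) ^ 2) := by gcongr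
      _ = _ := by rw [div_pow]; ring
  have h3 : Real.sqrt ((∑ k ∈ range n, ∑ a, pr μ c k a ^ 2) * (n * N)) *
      Real.log N ^ (3 * (U + 4)) ≤ Real.sqrt (K * 3 ^ D) * (N / Real.log N ^ U) := by
    calc _ ≤ Real.sqrt (K * 3 ^ D) * (N / Real.log N ^ (4 * U + 12)) *
          Real.log N ^ (3 * (U + 4)) := mul_le_mul_of_nonneg_right h2 (by positivity)
      _ = _ := by
        have e : Real.log N ^ (4 * U + 12) = Real.log N ^ (3 * (U + 4)) * Real.log N ^ U := by
          rw [← pow_add]; congr 1; ring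
        rw [e]
        field_simp
  have h4 : ∫ ω, SN c N n ω ∂μ ≤ C * (1 + Real.sqrt (K * 3 ^ D)) * (N / Real.log N ^ U) := by
    rw [integral_SN μ hc]
    refine h1.trans ?_
    calc _ ≤ C * (N / Real.log N ^ U + Real.sqrt (K * 3 ^ D) * (N / Real.log N ^ U)) := by gcongr
      _ = _ := by ring
  have h5 := mul_meas_ge_le_integral_of_nonneg (μ := μ) (f := SN c N n)
    (Eventually.of_forall fun ω => SN_nonneg N n ω) (integrable_SN μ hc N n) t
  rw [le_div_iff₀ ht, mul_comm]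
  exact h5.trans h4

end Random

end Pool.Agent.Q93.EHC
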