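import Pool.Agent.Q93.EHC.Cat

/-! Weighted mean values of the errors over all classes and moduli. -/

set_option autoImplicit false

open Finset Filter

namespace Pool.Agent.Q93.EHC

open Pool.Agent.TH926.EH

lemma sum_shift (f : ℕ → ℝ) (n : ℕ) : ∑ k ∈ range n, f (k + 1) = ∑ q ∈ Icc 1 n, f q := by
  have e : Icc 1 n = Ico 1 (n + 1) := by
    ext q; simp only [mem_Icc, mem_Ico]; omega
  rw [e, sum_Ico_eq_sum_range, Nat.add_sub_cancel]
  apply sum_congr rfl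
  intro k _
  rw [Nat.add_comm]

lemma sum_units_le {q : ℕ} [NeZero q] (f : ZMod q → ℝ) (hf : ∀ x, 0 ≤ f x) :
    ∑ a : (ZMod q)ˣ, f a ≤ ∑ x : ZMod q, f x := by
  classical
  have e : ∑ a : (ZMod q)ˣ, f a = ∑ x ∈ univ.image (fun a : (ZMod q)ˣ => (a : ZMod q)), f x := by
    rw [sum_image]
    intro a _ b _ hab
    exact Units.ext hab
  rw [e]
  exact sum_le_sum_of_subset_of_nonneg (subset_univ _) fun x _ _ => hf x

/-- **weighted mean values** -/
theorem wt (U : ℕ) : ∃ C : ℝ, 0 < C ∧ ∀ N : ℕ, 3 ≤ N → ∀ n : ℕ,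
    (n : ℝ) * Real.log N ^ (U + 1) ≤ N →
    ∀ w : ∀ k : ℕ, (ZMod (k + 1))ˣ → ℝ, (∀ k a, 0 ≤ w k a) → (∀ k, ∑ a, w k a ≤ 1) →
    ∑ k ∈ range n, ∑ a : (ZMod (k + 1))ˣ, w k a * |err N (k + 1) (a : ZMod (k + 1))| ≤
      C * (N / Real.log N ^ U + Real.sqrt ((∑ k ∈ range n, ∑ a, w k a ^ 2) * (n * N)) *
        Real.log N ^ (3 * (U + 4))) := by
  obtain ⟨C1, hC10, hC1⟩ := low_total2' U
  refine ⟨C1 + 40, by positivity, fun N hN n hn w hw0 hw1 => ?_⟩
  have hl1 := log_ge_one hN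
  have hN1 : (1:ℝ) ≤ N := by
    have : 1 ≤ N := by omega
    exact_mod_cast this
  have hN0 : (0:ℝ) < N := by linarith
  have hl : 0 < Real.log N := by linarith
  set Λ := Real.log N with hΛ
  set u : ℝ := (N:ℝ) / Λ ^ U with hu
  have hu0 : 0 < u := by positivity
  rcases Nat.eq_zero_or_pos n with hn0 | hn1
  · subst hn0
    rw [range_zero, sum_empty]
    positivity
  have hΛU : 1 ≤ Λ ^ (U + 1) := one_le_pow₀ hl1
  have hn0 : (0:ℝ) ≤ n := Nat.cast_nonneg n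
  have hnN : (n:ℝ) ≤ N := by nlinarith
  have hnN' : n ≤ N := by exact_mod_cast hnN
  set V : ℝ := Λ ^ (U + 4) with hV
  have hV0 : 0 < V := by positivity
  have hVΛ : Λ ≤ V := by
    calc Λ = Λ ^ 1 := (pow_one Λ).symm
      _ ≤ Λ ^ (U + 4) := pow_le_pow_right₀ hl1 (by omega)
  set R := cut2 V N with hR
  obtain ⟨G, hG⟩ : ∃ G : ∀ k : ℕ, ZMod (k + 1) → ℝ, G = fun k x => ‖Al N (k + 1) R x‖ := ⟨_, rfl⟩
  have hG0 : ∀ k x, 0 ≤ G k x := fun k x => by rw [hG]; exact norm_nonneg _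
  have hm : ∀ q, 0 ≤ min (low2 V N q) (N:ℝ) := fun q => le_min (low2_nonneg _ _ _) hN0.le
  have pt : ∀ (k : ℕ) (a : (ZMod (k + 1))ˣ), |err N (k + 1) (a : ZMod (k + 1))| ≤
      min (low2 V N (k + 1)) N + G k a := by
    intro k a
    rw [err_unit]
    have h1 := E_le2 V N (k + 1) (a : ZMod (k + 1)).val (by omega) (ZMod.val_coe_unit_coprime a)
    have h2 := E_triv N (k + 1) (a : ZMod (k + 1)).val (by omega)
    rw [ZMod.natCast_zmod_val] at h1
    have h3 : G k a = ‖Al N (k + 1) R (a : ZMod (k + 1))‖ := by rw [hG]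
    rw [h3]
    have h4 : 0 ≤ ‖Al N (k + 1) R (a : ZMod (k + 1))‖ := norm_nonneg _
    rcases min_choice (low2 V N (k + 1)) (N:ℝ) with h | h
    · rw [h]; exact h1
    · rw [h]; linarith
  have s1 : ∑ k ∈ range n, ∑ a : (ZMod (k + 1))ˣ, w k a * |err N (k + 1) (a : ZMod (k + 1))| ≤
      ∑ k ∈ range n, min (low2 V N (k + 1)) (N:ℝ) +
        ∑ k ∈ range n, ∑ a : (ZMod (k + 1))ˣ, w k a * G k a := by
    rw [← sum_add_distrib]
    apply sum_le_sum
    intro k _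
    calc ∑ a : (ZMod (k + 1))ˣ, w k a * |err N (k + 1) (a : ZMod (k + 1))| ≤
        ∑ a : (ZMod (k + 1))ˣ, (w k a * min (low2 V N (k + 1)) (N:ℝ) + w k a * G k a) := by
          apply sum_le_sum
          intro a _
          rw [← mul_add]
          exact mul_le_mul_of_nonneg_left (pt k a) (hw0 k a)
      _ = (∑ a, w k a) * min (low2 V N (k + 1)) (N:ℝ) + ∑ a : (ZMod (k + 1))ˣ, w k a * G k a := by
          rw [sum_add_distrib, sum_mul]
      _ ≤ 1 * min (low2 V N (k + 1)) (N:ℝ) + ∑ a : (ZMod (k + 1))ˣ, w k a * G k a := by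
          have := mul_le_mul_of_nonneg_right (hw1 k) (hm (k + 1))
          linarith
      _ = _ := by rw [one_mul]
  have s3 : ∑ k ∈ range n, min (low2 V N (k + 1)) (N:ℝ) ≤ C1 * u := by
    rw [sum_shift (fun q => min (low2 V N q) (N:ℝ)) n]
    apply hC1 N hN V le_rfl n hn (fun q => min (low2 V N q) (N:ℝ))
    · intro d _
      have h1 : 0 ≤ (N : ℝ) / (d * V) := by positivity
      exact (min_le_left _ _).trans (by linarith)
    · intro d _
      exact min_le_right _ _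
  have s5 := high_sum2 N hN V hVΛ n hn1 hnN'
  have s6 : ∑ k ∈ range n, ∑ a : (ZMod (k + 1))ˣ, G k a ^ 2 ≤ 1552 * n * N * V ^ 5 := by
    refine le_trans ?_ s5
    rw [← sum_shift (fun d => ∑ a ∈ range d, ‖Al N d (cut2 V N) (a : ZMod d)‖ ^ 2) n]
    apply sum_le_sum
    intro k _
    rw [sum_range_norm (k + 1) (fun x => ‖Al N (k + 1) (cut2 V N) x‖ ^ 2)]
    have h1 := sum_units_le (q := k + 1) (fun x => ‖Al N (k + 1) (cut2 V N) x‖ ^ 2)
      (fun x => by positivity)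
    rw [hG]
    exact h1
  set W : ℝ := Λ ^ (3 * (U + 4)) with hW
  have hW0 : 0 < W := by positivity
  have hVW : V ^ 5 ≤ W ^ 2 := by
    rw [hV, hW, ← pow_mul, ← pow_mul]
    exact pow_le_pow_right₀ hl1 (by omega)
  obtain ⟨T, hT⟩ : ∃ T : ℝ, T = ∑ k ∈ range n, ∑ a, w k a ^ 2 := ⟨_, rfl⟩
  have hT0 : 0 ≤ T := by
    rw [hT]; exact sum_nonneg fun _ _ => sum_nonneg fun _ _ => sq_nonneg _
  have s8 : ∑ k ∈ range n, ∑ a : (ZMod (k + 1))ˣ, w k a * G k a ≤
      40 * (Real.sqrt (T * (n * N)) * W) := by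
    have h1 : ∑ k ∈ range n, ∑ a : (ZMod (k + 1))ˣ, w k a * G k a =
        ∑ p ∈ (range n).sigma (fun k => (univ : Finset (ZMod (k + 1))ˣ)),
          w p.1 p.2 * G p.1 p.2 := by rw [sum_sigma]
    have h2 : T = ∑ p ∈ (range n).sigma (fun k => (univ : Finset (ZMod (k + 1))ˣ)),
          w p.1 p.2 ^ 2 := by rw [sum_sigma, hT]
    have h3 : ∑ k ∈ range n, ∑ a : (ZMod (k + 1))ˣ, G k a ^ 2 =
        ∑ p ∈ (range n).sigma (fun k => (univ : Finset (ZMod (k + 1))ˣ)),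
          G p.1 p.2 ^ 2 := by rw [sum_sigma]
    have h4 := Real.sum_mul_le_sqrt_mul_sqrt
      ((range n).sigma (fun k => (univ : Finset (ZMod (k + 1))ˣ)))
      (fun p => w p.1 p.2) (fun p => G p.1 p.2)
    rw [← h1, ← h2, ← h3, ← Real.sqrt_mul hT0] at h4
    refine h4.trans ?_
    have h5 : T * ∑ k ∈ range n, ∑ a : (ZMod (k + 1))ˣ, G k a ^ 2 ≤ (T * (n * N)) * (40 * W) ^ 2 := by
      calc T * ∑ k ∈ range n, ∑ a : (ZMod (k + 1))ˣ, G k a ^ 2 ≤ T * (1552 * n * N * V ^ 5) := by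
            gcongr
        _ ≤ T * (1552 * n * N * W ^ 2) := by gcongr
        _ ≤ T * (1600 * n * N * W ^ 2) := by gcongr; norm_num
        _ = _ := by ring
    refine (Real.sqrt_le_sqrt h5).trans ?_
    rw [Real.sqrt_mul (by positivity), Real.sqrt_sq (by positivity)]
    apply le_of_eq
    ring
  rw [← hT]
  have p2 : 0 ≤ C1 * (Real.sqrt (T * (n * N)) * W) := by positivity
  have p3 : 0 ≤ C1 * u := by positivity
  calc _ ≤ _ := s1
    _ ≤ C1 * u + 40 * (Real.sqrt (T * (n * N)) * W) := by linarith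
    _ ≤ C1 * u + 40 * (Real.sqrt (T * (n * N)) * W) + 40 * u +
        C1 * (Real.sqrt (T * (n * N)) * W) := by linarith
    _ = _ := by ring

end Pool.Agent.Q93.EHC
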